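import Pool.Agent.Helper84.FX.StX

/-!
# Project FX, chapter T, file X, module CGR: a weak equivalence only depends on the values on the source
-/

set_option autoImplicit false

namespace Pool.Agent.Helper55.FX

open Pool.Agent.Helper84.FX Pool.Agent.Helper72.FX

theorem hCGR : StHTP → StCGR := by
  intro _ E F _ _ X Y f g hfg hf
  obtain ⟨⟨hc, hm⟩, h⟩ := hf
  refine ⟨⟨hc.congr fun x hx => (hfg x hx).symm, fun x hx => (hfg x hx) ▸ hm hx⟩, ?_⟩
  intro n a b ha hb hab
  obtain ⟨c, H, h1, h2, h3, h4, h5, h6⟩ := h n a b ha hb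
    (fun u hu => (hab u hu).trans (hfg _ (ha.2 hu)).symm)
  exact ⟨c, H, h1, h2, h3, h4, fun u hu => (h5 u hu).trans (hfg _ (h1.2 hu)), h6⟩

end Pool.Agent.Helper55.FX
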