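import Pool.Agent.Helper72.FX.StC1

/-!
# Project FX, chapter K, module EXM: extension of an additive function to `MvPolynomial (Fin n) A`
-/

set_option autoImplicit false

namespace Pool.Agent.Helper55.FX

open Pool.Agent.Helper72.FX

private theorem iso_step (hRES : StRES) {A' A : Type} [CommRing A'] [CommRing A] (e : A' ≃+* A)
    (I' : Ideal A') (I : Ideal A) (hI : I = I'.map (e : A' →+* A)) {Λ : Type} [AddCommGroup Λ]
    (χ : AF A' (kil I') Λ) :
    ∃ ψ : AF A (kil I) Λ, ∀ (J' : Ideal A') (J : Ideal A), J = J'.map (e : A' →+* A) → I' ≤ J' →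
      ψ.f (A ⧸ J) = χ.f (A' ⧸ J') := by
  obtain ⟨ψ, hψ⟩ := hRES A A' (e : A' →+* A) I I' hI.ge
    (fun a => ⟨e.symm a, by simp⟩) Λ χ
  refine ⟨ψ, fun J' J hJ hIJ => ?_⟩
  let _ : Module A' (A ⧸ J) := Module.compHom (A ⧸ J) (e : A' →+* A)
  rw [hψ (A ⧸ J) (fun _ _ => rfl)]
  let q : A' ⧸ J' ≃+* A ⧸ J := Ideal.quotientEquiv J' J e hJ
  let l : (A ⧸ J) ≃ₗ[A'] (A' ⧸ J') :=
    { q.symm.toAddEquiv with
      map_smul' := by
        intro a m
        obtain ⟨y, rfl⟩ := q.surjective m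
        change q.symm ((e : A' →+* A) a • q y) = a • q.symm (q y)
        rw [q.symm_apply_apply]
        apply q.injective
        rw [q.apply_symm_apply]
        obtain ⟨z, rfl⟩ := Ideal.Quotient.mk_surjective y
        have h1 : ∀ w : A', q (Ideal.Quotient.mk J' w) = Ideal.Quotient.mk J (e w) := fun w => rfl
        have h2 : a • Ideal.Quotient.mk J' z = Ideal.Quotient.mk J' (a * z) := rfl
        rw [h2, h1, h1, map_mul]
        rfl }
  exact χ.equiv (gd_kil I') l inferInstance (kil_mono hIJ (kil_quot J'))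

theorem hEXM : StEXM := by
  intro hEXT hRES hPMQ A _ _ I Λ _ χ n
  induction n with
  | zero =>
    have hC : (((MvPolynomial.isEmptyAlgEquiv A (Fin 0)).symm.toRingEquiv :
        A ≃+* MvPolynomial (Fin 0) A) : A →+* MvPolynomial (Fin 0) A) = MvPolynomial.C := by
      ext a : 1
      apply (MvPolynomial.isEmptyAlgEquiv A (Fin 0)).injective
      simp
    obtain ⟨ψ, hψ⟩ := iso_step hRES
      (MvPolynomial.isEmptyAlgEquiv A (Fin 0)).symm.toRingEquiv I (I.map MvPolynomial.C)
      (by rw [hC]) χ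
    exact ⟨ψ, fun J hJ => hψ J _ (by rw [hC]) hJ⟩
  | succ n ih =>
    obtain ⟨ψn, hn⟩ := ih
    obtain ⟨ψX, hX⟩ := hEXT (MvPolynomial (Fin n) A) (I.map MvPolynomial.C) Λ ψn
    have hC : ∀ J : Ideal A, J.map (MvPolynomial.C : A →+* MvPolynomial (Fin (n + 1)) A) =
        ((J.map (MvPolynomial.C : A →+* MvPolynomial (Fin n) A)).map Polynomial.C).map
          (((MvPolynomial.finSuccEquiv A n).symm.toRingEquiv :
            Polynomial (MvPolynomial (Fin n) A) ≃+* MvPolynomial (Fin (n + 1)) A) :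
            Polynomial (MvPolynomial (Fin n) A) →+* MvPolynomial (Fin (n + 1)) A) := by
      intro J
      rw [Ideal.map_map, Ideal.map_map]
      congr 1
      exact (MvPolynomial.finSuccEquiv_comp_C_eq_C n).symm
    obtain ⟨ψ, hψ⟩ := iso_step hRES (MvPolynomial.finSuccEquiv A n).symm.toRingEquiv
      ((I.map MvPolynomial.C).map Polynomial.C) (I.map MvPolynomial.C) (hC I) ψX
    refine ⟨ψ, fun J hJ => ?_⟩
    rw [hψ _ _ (hC J) (Ideal.map_mono (Ideal.map_mono hJ))]
    obtain ⟨l⟩ := hPMQ (MvPolynomial (Fin n) A) (J.map MvPolynomial.C)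
    rw [← ψX.equiv (gd_kil _) l inferInstance
      (kil_mono (Ideal.map_mono (Ideal.map_mono hJ)) (kil_quot _)),
      hX _ inferInstance (kil_mono (Ideal.map_mono hJ) (kil_quot _)), hn J hJ]

end Pool.Agent.Helper55.FX
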