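import Pool.Agent.Helper72.FX.StK

/-!
# Project FX, chapter K, module PCM: compatibility for the modules killed by a power of `E`
-/

set_option autoImplicit false

namespace Pool.Agent.Helper55.FX

open Polynomial Pool.Agent.Helper72.FX

theorem hPCM : StPCM := by
  intro hSNK hPMX hPTO B _ _ I E s Λ _ χB τ h0
  obtain ⟨hK, hC, -⟩ := hPTO hPMX B I E s
  have key : ∀ (k : ℕ) (N : Type) [AddCommGroup N] [Module B N], Module.Finite B N → kil I N →
      (∀ y : N, E ^ k • y = 0) →
      χB.f N = τ.f (Ck (pel E s) (PolynomialModule B N)) -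
        τ.f (Kn (pel E s) (PolynomialModule B N)) := by
    intro k
    induction k with
    | zero =>
      intro N _ _ hf hI hE
      refine h0 N hf hI (fun y => ?_)
      have h := hE y
      rw [pow_zero, one_smul] at h
      rw [h, smul_zero]
    | succ k ih =>
      intro N _ _ hf hI hE
      have hS : ∀ y : LinearMap.range (LinearMap.lsmul B N E), E ^ k • y = 0 := by
        rintro ⟨y, z, rfl⟩
        apply Subtype.ext
        change E ^ k • (E • z) = 0
        rw [smul_smul, ← pow_succ]
        exact hE z
      have hQ : ∀ y : N ⧸ LinearMap.range (LinearMap.lsmul B N E), E • y = 0 := by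
        intro y
        obtain ⟨z, rfl⟩ := Submodule.mkQ_surjective _ y
        rw [← map_smul, Submodule.mkQ_apply, Submodule.Quotient.mk_eq_zero]
        exact ⟨z, rfl⟩
      have hIS : kil I (LinearMap.range (LinearMap.lsmul B N E)) :=
        (gd_kil I).inj _ N (Submodule.subtype _) (Submodule.injective_subtype _) hI
      have hIQ : kil I (N ⧸ LinearMap.range (LinearMap.lsmul B N E)) :=
        (gd_kil I).surj N _ (Submodule.mkQ _) (Submodule.mkQ_surjective _) hI
      have hfS : Module.Finite B (LinearMap.range (LinearMap.lsmul B N E)) := inferInstance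
      have hfQ : Module.Finite B (N ⧸ LinearMap.range (LinearMap.lsmul B N E)) := inferInstance
      have e1 := χB.quot (LinearMap.range (LinearMap.lsmul B N E)) hf hI
      have e2 := ih _ hfS hIS hS
      have e3 := h0 _ hfQ hIQ hQ
      obtain ⟨p1, -, p3, -, -, -⟩ := hPMX B _ N _
        (Submodule.subtype (LinearMap.range (LinearMap.lsmul B N E)))
        (Submodule.mkQ (LinearMap.range (LinearMap.lsmul B N E)))
      obtain ⟨-, p2, -, -, -, -⟩ := hPMX B N _ N
        (Submodule.mkQ (LinearMap.range (LinearMap.lsmul B N E))) 0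
      have kN := hK N hf hI
      have kQ := hK _ hfQ hIQ
      have cN := hC N hf ⟨hI, k + 1, hE⟩
      have cS := hC _ hfS ⟨hIS, k, hS⟩
      have e4 := hSNK B[X] (kpw (pid I E s) (C E)) (gd_kpw _ _) Λ τ _ _ _ _ _ _
        (pmap (Submodule.subtype (LinearMap.range (LinearMap.lsmul B N E))))
        (pmap (Submodule.mkQ (LinearMap.range (LinearMap.lsmul B N E))))
        (pmap (Submodule.subtype (LinearMap.range (LinearMap.lsmul B N E))))
        (pmap (Submodule.mkQ (LinearMap.range (LinearMap.lsmul B N E))))
        (LinearMap.lsmul B[X] _ (pel E s)) (LinearMap.lsmul B[X] _ (pel E s))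
        (LinearMap.lsmul B[X] _ (pel E s))
        (p1 (Submodule.injective_subtype _)) (p3 (LinearMap.exact_subtype_mkQ _))
        (p2 (Submodule.mkQ_surjective _))
        (p1 (Submodule.injective_subtype _)) (p3 (LinearMap.exact_subtype_mkQ _))
        (p2 (Submodule.mkQ_surjective _))
        (LinearMap.ext fun x => ((pmap _).map_smul (pel E s) x).symm)
        (LinearMap.ext fun x => ((pmap _).map_smul (pel E s) x).symm)
        kN.1 kN.2 kQ.1 kQ.2 cS.1 cS.2 cN.1 cN.2
      rw [e1, e2, e3]
      exact e4.symm
  rintro N _ _ hf ⟨hI, k, hE⟩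
  exact key k N hf hI hE

end Pool.Agent.Helper55.FX
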